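import Mathlib

/-!
# Six convex hulls of subsets of five points

Five points in the plane: the origin `o` and the points `p = (1,0)`, `q = (0,1)`, `r = (-1,0)`,
`s = (0,-1)`.  The four segments from `o` to the other points and the two triangles `o p q` and
`o r s` form an admissible family: all contain `o`, and three of them have only `o` in common.
-/

set_option autoImplicit false

namespace Pool.Agent.Results.MP_a31168_co.SixHulls

/-- The family `S` of subsets of the finite planar set `P` is admissible: its members are pairwise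
distinct subsets of `P` with more than one and fewer than `P.card` elements, the convex hulls of any
two of them meet, and the convex hulls of any three of them have only points of `P` in common. -/
def Admissible (P : Finset (ℝ × ℝ)) {m : ℕ} (S : Fin m → Finset (ℝ × ℝ)) : Prop :=
  Function.Injective S ∧ (∀ i, S i ⊆ P ∧ 1 < (S i).card ∧ (S i).card < P.card) ∧
    (∀ i j, i ≠ j → (convexHull ℝ (S i : Set (ℝ × ℝ)) ∩ convexHull ℝ (S j : Set (ℝ × ℝ))).Nonempty) ∧
    ∀ i j k, i ≠ j → i ≠ k → j ≠ k →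
      convexHull ℝ (S i : Set (ℝ × ℝ)) ∩ convexHull ℝ (S j : Set (ℝ × ℝ)) ∩
        convexHull ℝ (S k : Set (ℝ × ℝ)) ⊆ (P : Set (ℝ × ℝ))

/-- The coordinates of the five points. -/
def co : Fin 5 → ℤ × ℤ := ![(0, 0), (1, 0), (0, 1), (-1, 0), (0, -1)]

theorem co_inj : Function.Injective co := by decide

/-- The five points. -/
noncomputable def pt : Fin 5 ↪ ℝ × ℝ where
  toFun k := (((co k).1 : ℝ), ((co k).2 : ℝ))
  inj' := by
    intro a b h
    apply co_inj
    have h1 : ((co a).1 : ℝ) = (co b).1 := congrArg Prod.fst h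
    have h2 : ((co a).2 : ℝ) = (co b).2 := congrArg Prod.snd h
    exact Prod.ext (by exact_mod_cast h1) (by exact_mod_cast h2)

/-- The six subsets of the set of indices. -/
def T : Fin 6 → Finset (Fin 5) := ![{0, 1}, {0, 2}, {0, 3}, {0, 4}, {0, 1, 2}, {0, 3, 4}]

theorem T_inj : Function.Injective T := by decide

/-- Signs: the first pair tells whether `x ≥ 0` and whether `x ≤ 0` on the hull, the second pair is
for `y`. -/
def fl : Fin 6 → (Bool × Bool) × (Bool × Bool) :=
  ![((true, false), (true, true)), ((true, true), (true, false)), ((false, true), (true, true)),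
    ((true, true), (false, true)), ((true, false), (true, false)), ((false, true), (false, true))]

theorem fl_spec : ∀ i : Fin 6, ∀ k ∈ T i, ((fl i).1.1 = true → 0 ≤ (co k).1) ∧
    ((fl i).1.2 = true → (co k).1 ≤ 0) ∧ ((fl i).2.1 = true → 0 ≤ (co k).2) ∧
    ((fl i).2.2 = true → (co k).2 ≤ 0) := by decide

theorem fl_triple : ∀ i j k : Fin 6, i ≠ j → i ≠ k → j ≠ k →
    ((fl i).1.1 = true ∨ (fl j).1.1 = true ∨ (fl k).1.1 = true) ∧
    ((fl i).1.2 = true ∨ (fl j).1.2 = true ∨ (fl k).1.2 = true) ∧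
    ((fl i).2.1 = true ∨ (fl j).2.1 = true ∨ (fl k).2.1 = true) ∧
    ((fl i).2.2 = true ∨ (fl j).2.2 = true ∨ (fl k).2.2 = true) := by decide

/-- The set of the points. -/
noncomputable def P : Finset (ℝ × ℝ) := Finset.univ.map pt

/-- The six sets of points. -/
noncomputable def S (i : Fin 6) : Finset (ℝ × ℝ) := (T i).map pt

theorem hull_sub (i : Fin 6) {z : ℝ × ℝ} (hz : z ∈ convexHull ℝ (S i : Set (ℝ × ℝ))) :
    ((fl i).1.1 = true → 0 ≤ z.1) ∧ ((fl i).1.2 = true → z.1 ≤ 0) ∧
    ((fl i).2.1 = true → 0 ≤ z.2) ∧ ((fl i).2.2 = true → z.2 ≤ 0) := by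
  have key : ∀ (C : Set (ℝ × ℝ)), Convex ℝ C → (∀ k ∈ T i, pt k ∈ C) → z ∈ C := by
    intro C hC h
    refine convexHull_min ?_ hC hz
    intro w hw
    rw [Finset.mem_coe, S, Finset.mem_map] at hw
    obtain ⟨k, hk, rfl⟩ := hw
    exact h k hk
  have hf : IsLinearMap ℝ (Prod.fst : ℝ × ℝ → ℝ) := ⟨fun _ _ => rfl, fun _ _ => rfl⟩
  have hs : IsLinearMap ℝ (Prod.snd : ℝ × ℝ → ℝ) := ⟨fun _ _ => rfl, fun _ _ => rfl⟩
  refine ⟨fun h => ?_, fun h => ?_, fun h => ?_, fun h => ?_⟩
  · refine key {w | 0 ≤ w.1} (convex_halfSpace_ge hf 0) fun k hk => ?_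
    have := (fl_spec i k hk).1 h
    show (0 : ℝ) ≤ ((co k).1 : ℝ)
    exact_mod_cast this
  · refine key {w | w.1 ≤ 0} (convex_halfSpace_le hf 0) fun k hk => ?_
    have := (fl_spec i k hk).2.1 h
    show ((co k).1 : ℝ) ≤ 0
    exact_mod_cast this
  · refine key {w | 0 ≤ w.2} (convex_halfSpace_ge hs 0) fun k hk => ?_
    have := (fl_spec i k hk).2.2.1 h
    show (0 : ℝ) ≤ ((co k).2 : ℝ)
    exact_mod_cast this
  · refine key {w | w.2 ≤ 0} (convex_halfSpace_le hs 0) fun k hk => ?_
    have := (fl_spec i k hk).2.2.2 h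
    show ((co k).2 : ℝ) ≤ 0
    exact_mod_cast this

theorem origin_mem (i : Fin 6) : pt 0 ∈ convexHull ℝ (S i : Set (ℝ × ℝ)) := by
  apply subset_convexHull
  rw [Finset.mem_coe, S, Finset.mem_map]
  exact ⟨0, by revert i; decide, rfl⟩

theorem pt_zero : pt 0 = (0, 0) := by
  show (((0 : ℤ) : ℝ), ((0 : ℤ) : ℝ)) = (0, 0)
  simp

theorem admissible : Admissible P S := by
  refine ⟨?_, ?_, ?_, ?_⟩
  · intro i j h
    exact T_inj (Finset.map_injective pt h)
  · intro i
    refine ⟨Finset.map_subset_map.2 (Finset.subset_univ _), ?_, ?_⟩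
    · rw [S, Finset.card_map]
      revert i
      decide
    · rw [S, P, Finset.card_map, Finset.card_map]
      revert i
      decide
  · intro i j _
    exact ⟨pt 0, origin_mem i, origin_mem j⟩
  · rintro i j k hij hik hjk z ⟨⟨hi, hj⟩, hk⟩
    have h := fl_triple i j k hij hik hjk
    have h1 := hull_sub i hi
    have h2 := hull_sub j hj
    have h3 := hull_sub k hk
    have hx0 : 0 ≤ z.1 := by
      rcases h.1 with h | h | h
      · exact h1.1 h
      · exact h2.1 h
      · exact h3.1 h
    have hx1 : z.1 ≤ 0 := by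
      rcases h.2.1 with h | h | h
      · exact h1.2.1 h
      · exact h2.2.1 h
      · exact h3.2.1 h
    have hy0 : 0 ≤ z.2 := by
      rcases h.2.2.1 with h | h | h
      · exact h1.2.2.1 h
      · exact h2.2.2.1 h
      · exact h3.2.2.1 h
    have hy1 : z.2 ≤ 0 := by
      rcases h.2.2.2 with h | h | h
      · exact h1.2.2.2 h
      · exact h2.2.2.2 h
      · exact h3.2.2.2 h
    have hz : z = pt 0 := by
      rw [pt_zero]
      exact Prod.ext (le_antisymm hx1 hx0) (le_antisymm hy1 hy0)
    rw [hz, P, Finset.mem_coe, Finset.mem_map]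
    exact ⟨0, Finset.mem_univ _, rfl⟩

/-- There is a set of five points in the plane with an admissible family of six subsets. -/
theorem result : ∃ (P : Finset (ℝ × ℝ)) (S : Fin 6 → Finset (ℝ × ℝ)),
    P.card = 5 ∧ Admissible P S :=
  ⟨P, S, by rw [P, Finset.card_map]; rfl, admissible⟩

end Pool.Agent.Results.MP_a31168_co.SixHulls
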